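import Pool.Agent.Helper6.LPB.St
import Pool.Agent.Helper9.SU.M_ALL

/-!
# Project LPB, module CTT: counting pairs by classes
-/

set_option autoImplicit false

noncomputable section

namespace Pool.Agent.Helper1.LPB

open Finset
open Pool.Agent.Helper6.LP
open Pool.Agent.Helper6.LPB

private theorem ff_congr (l : ℕ) {m m' y y' : ℤ} (h1 : m ≡ m' [ZMOD l]) (h2 : y ≡ y' [ZMOD l]) :
    ((l : ℤ) ∣ ff m y ↔ (l : ℤ) ∣ ff m' y') := by
  have h : ff m y ≡ ff m' y' [ZMOD l] := by
    unfold ff fa fb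
    exact ((h1.sub h2).add (h1.mul h2)).mul (((h1.sub h2).pow 2).add (h1.mul (h2.pow 2)))
  rw [Int.dvd_iff_emod_eq_zero, Int.dvd_iff_emod_eq_zero, h]

/-- the pairs of classes -/
private def RR (l : ℕ) : Finset (ℕ × ℕ) :=
  (range l ×ˢ range l).filter (fun x : ℕ × ℕ => (l : ℤ) ∣ ff x.1 x.2)

private theorem RR_card (l : ℕ) : (RR l).card = NN l := by
  unfold RR NN
  rw [Finset.card_filter, Finset.sum_product_right]
  refine Finset.sum_congr rfl fun t _ => ?_
  unfold SS
  rw [Finset.card_filter]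
  refine Finset.sum_congr rfl fun s _ => ?_
  have : ((0 : ℕ) : ℤ) + ((1 : ℕ) : ℤ) * (s : ℤ) = s := by push_cast; ring
  rw [this]

private def CP (K q r r' : ℕ) (T : Finset ℕ) : ℕ :=
  (((Icc 1 K) ×ˢ (Icc 1 K)).filter (fun x : ℕ × ℕ =>
    (x.1 % q = r % q ∧ x.2 % q = r' % q) ∧ ∀ l ∈ T, (l : ℤ) ∣ ff x.1 x.2)).card

private theorem one_var (K q r : ℕ) (hq : 1 ≤ q) :
    |(((Icc 1 K).filter (fun e => e % q = r % q)).card : ℝ) - (K : ℝ) / q| ≤ 1 := by
  have h := Pool.Agent.Helper9.SU.cntT_ALL 0 K (fun _ => ∅) ∅ (by simp) q r hq (by simp)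
  have h2 : (Ioc 0 (0 + K)).filter (fun e => e % q = r % q ∧ ∀ l ∈ (∅ : Finset ℕ), e % l ∈ (∅ : Finset ℕ)) =
      (Icc 1 K).filter (fun e => e % q = r % q) := by
    ext e
    simp only [mem_filter, mem_Ioc, mem_Icc, notMem_empty, false_imp_iff, implies_true, and_true]
    constructor
    · rintro ⟨h3, h4⟩
      exact ⟨by omega, h4⟩
    · rintro ⟨h3, h4⟩
      exact ⟨by omega, h4⟩
  rw [prod_empty, prod_empty, mul_one] at h
  rw [← h2]
  convert h using 3

private theorem ind (K : ℕ) (T : Finset ℕ) : (∀ l ∈ T, l.Prime) → ∀ q r r' : ℕ, 1 ≤ q →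
    (∀ l ∈ T, Nat.Coprime l q) →
    |(CP K q r r' T : ℝ) - ((K : ℝ) / q) ^ 2 * ∏ l ∈ T, (NN l : ℝ) / (l : ℝ) ^ 2| ≤
      (2 * ((K : ℝ) / q) + 1) * ∏ l ∈ T, (NN l : ℝ) := by
  classical
  induction T using Finset.induction_on with
  | empty =>
    intro _ q r r' hq _
    rw [prod_empty, prod_empty, mul_one, mul_one]
    have e : CP K q r r' ∅ = ((Icc 1 K).filter (fun e => e % q = r % q)).card *
        ((Icc 1 K).filter (fun e => e % q = r' % q)).card := by
      unfold CP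
      rw [← card_product]
      congr 1
      ext x
      simp only [mem_filter, mem_product, notMem_empty, false_imp_iff, implies_true, and_true]
      tauto
    rw [e, Nat.cast_mul]
    have h1 := abs_le.1 (one_var K q r hq)
    have h2 := abs_le.1 (one_var K q r' hq)
    have hx : (0 : ℝ) ≤ (K : ℝ) / q := by positivity
    generalize (((Icc 1 K).filter (fun e => e % q = r % q)).card : ℝ) = u at h1 ⊢
    generalize (((Icc 1 K).filter (fun e => e % q = r' % q)).card : ℝ) = v at h2 ⊢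
    generalize (K : ℝ) / q = x at h1 h2 hx ⊢
    obtain ⟨a, ha⟩ : ∃ a : ℝ, a = u - x := ⟨_, rfl⟩
    obtain ⟨b, hb⟩ : ∃ b : ℝ, b = v - x := ⟨_, rfl⟩
    rw [← ha] at h1
    rw [← hb] at h2
    have hu : u = x + a := by linarith
    have hv : v = x + b := by linarith
    rw [hu, hv]
    have e2 : (x + a) * (x + b) - x ^ 2 = x * a + x * b + a * b := by ring
    rw [e2]
    have hab : |a * b| ≤ 1 := by
      rw [abs_mul]
      have ha1 : |a| ≤ 1 := abs_le.2 ⟨h1.1, h1.2⟩
      have hb1 : |b| ≤ 1 := abs_le.2 ⟨h2.1, h2.2⟩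
      calc |a| * |b| ≤ 1 * 1 := mul_le_mul ha1 hb1 (abs_nonneg _) zero_le_one
        _ = 1 := one_mul _
    have hab' := abs_le.1 hab
    have g1 := mul_le_mul_of_nonneg_left h1.2 hx
    have g2 := mul_le_mul_of_nonneg_left h1.1 hx
    have g3 := mul_le_mul_of_nonneg_left h2.2 hx
    have g4 := mul_le_mul_of_nonneg_left h2.1 hx
    rw [abs_le]
    constructor <;> linarith
  | insert l T hl ih =>
    intro hT q r r' hq hco
    have hlp := hT l (mem_insert_self l T)
    have hl0 : 0 < l := hlp.pos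
    have hcl : Nat.Coprime q l := (hco l (mem_insert_self l T)).symm
    have hTT : ∀ l' ∈ T, l'.Prime := fun l' h => hT l' (mem_insert_of_mem h)
    have hco' : ∀ l' ∈ T, Nat.Coprime l' (q * l) := by
      intro l' h
      refine Nat.Coprime.mul_right (hco l' (mem_insert_of_mem h)) ?_
      exact (Nat.coprime_primes (hTT l' h) hlp).2 (fun he => hl (he ▸ h))
    have hql : 1 ≤ q * l := Nat.mul_pos hq hl0
    -- splitting into classes
    have hsplit : CP K q r r' (insert l T) = ∑ p ∈ RR l,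
        CP K (q * l) (Nat.chineseRemainder hcl r p.1) (Nat.chineseRemainder hcl r' p.2) T := by
      unfold CP
      rw [Finset.card_eq_sum_card_fiberwise (f := fun x : ℕ × ℕ => (x.1 % l, x.2 % l)) (t := RR l)]
      · refine Finset.sum_congr rfl fun p hp => ?_
        unfold RR at hp
        rw [mem_filter, mem_product, mem_range, mem_range] at hp
        obtain ⟨⟨hp1, hp2⟩, hp3⟩ := hp
        congr 1
        ext x
        rw [mem_filter, mem_filter, mem_filter]
        have c1 : x.1 % (q * l) = (Nat.chineseRemainder hcl r p.1 : ℕ) % (q * l) ↔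
            x.1 % q = r % q ∧ x.1 % l = p.1 := by
          have d1 := (Nat.chineseRemainder hcl r p.1).2
          have d2 : x.1 ≡ (Nat.chineseRemainder hcl r p.1 : ℕ) [MOD q * l] ↔
              x.1 ≡ (Nat.chineseRemainder hcl r p.1 : ℕ) [MOD q] ∧
              x.1 ≡ (Nat.chineseRemainder hcl r p.1 : ℕ) [MOD l] :=
            (Nat.modEq_and_modEq_iff_modEq_mul hcl).symm
          have d3 : x.1 ≡ (Nat.chineseRemainder hcl r p.1 : ℕ) [MOD q] ↔ x.1 % q = r % q :=
            ⟨fun h => h.trans d1.1, fun h => Nat.ModEq.trans (show x.1 ≡ r [MOD q] from h) d1.1.symm⟩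
          have d4 : x.1 ≡ (Nat.chineseRemainder hcl r p.1 : ℕ) [MOD l] ↔ x.1 % l = p.1 := by
            constructor
            · intro h
              have := h.trans d1.2
              rw [Nat.ModEq, Nat.mod_eq_of_lt hp1] at this
              exact this
            · intro h
              refine Nat.ModEq.trans ?_ d1.2.symm
              rw [Nat.ModEq, Nat.mod_eq_of_lt hp1]
              exact h
          rw [← d3, ← d4]
          exact d2
        have c2 : x.2 % (q * l) = (Nat.chineseRemainder hcl r' p.2 : ℕ) % (q * l) ↔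
            x.2 % q = r' % q ∧ x.2 % l = p.2 := by
          have d1 := (Nat.chineseRemainder hcl r' p.2).2
          have d2 : x.2 ≡ (Nat.chineseRemainder hcl r' p.2 : ℕ) [MOD q * l] ↔
              x.2 ≡ (Nat.chineseRemainder hcl r' p.2 : ℕ) [MOD q] ∧
              x.2 ≡ (Nat.chineseRemainder hcl r' p.2 : ℕ) [MOD l] :=
            (Nat.modEq_and_modEq_iff_modEq_mul hcl).symm
          have d3 : x.2 ≡ (Nat.chineseRemainder hcl r' p.2 : ℕ) [MOD q] ↔ x.2 % q = r' % q :=
            ⟨fun h => h.trans d1.1, fun h => Nat.ModEq.trans (show x.2 ≡ r' [MOD q] from h) d1.1.symm⟩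
          have d4 : x.2 ≡ (Nat.chineseRemainder hcl r' p.2 : ℕ) [MOD l] ↔ x.2 % l = p.2 := by
            constructor
            · intro h
              have := h.trans d1.2
              rw [Nat.ModEq, Nat.mod_eq_of_lt hp2] at this
              exact this
            · intro h
              refine Nat.ModEq.trans ?_ d1.2.symm
              rw [Nat.ModEq, Nat.mod_eq_of_lt hp2]
              exact h
          rw [← d3, ← d4]
          exact d2
        rw [c1, c2]
        have c3 : x.1 % l = p.1 → x.2 % l = p.2 → (l : ℤ) ∣ ff x.1 x.2 := by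
          intro h1 h2
          rw [ff_congr l (m' := (p.1 : ℤ)) (y' := (p.2 : ℤ))]
          · exact hp3
          · rw [← h1]
            exact_mod_cast (Nat.mod_modEq x.1 l).symm
          · rw [← h2]
            exact_mod_cast (Nat.mod_modEq x.2 l).symm
        constructor
        · rintro ⟨⟨h1, ⟨h2, h3⟩, h4⟩, h5⟩
          have h6 : x.1 % l = p.1 := congrArg Prod.fst h5
          have h7 : x.2 % l = p.2 := congrArg Prod.snd h5
          exact ⟨h1, ⟨⟨h2, h6⟩, h3, h7⟩, fun l' h => h4 l' (mem_insert_of_mem h)⟩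
        · rintro ⟨h1, ⟨⟨h2, h6⟩, h3, h7⟩, h4⟩
          refine ⟨⟨h1, ⟨h2, h3⟩, ?_⟩, Prod.ext h6 h7⟩
          intro l' h
          rcases mem_insert.1 h with h8 | h8
          · rw [h8]
            exact c3 h6 h7
          · exact h4 l' h8
      · intro x hx
        rw [mem_coe, mem_filter] at hx
        unfold RR
        rw [mem_coe, mem_filter, mem_product, mem_range, mem_range]
        refine ⟨⟨Nat.mod_lt _ hl0, Nat.mod_lt _ hl0⟩, ?_⟩
        rw [← ff_congr l (m := (x.1 : ℤ)) (y := (x.2 : ℤ))]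
        · exact hx.2.2 l (mem_insert_self l T)
        · exact_mod_cast (Nat.mod_modEq x.1 l).symm
        · exact_mod_cast (Nat.mod_modEq x.2 l).symm
    rw [hsplit, prod_insert hl, prod_insert hl]
    push_cast
    obtain ⟨A, hA⟩ : ∃ A : ℝ, A = ((K : ℝ) / ((q : ℝ) * l)) ^ 2 * ∏ l' ∈ T, (NN l' : ℝ) / (l' : ℝ) ^ 2 :=
      ⟨_, rfl⟩
    obtain ⟨E, hE⟩ : ∃ E : ℝ, E = (2 * ((K : ℝ) / ((q : ℝ) * l)) + 1) * ∏ l' ∈ T, (NN l' : ℝ) := ⟨_, rfl⟩
    have hlR : (0 : ℝ) < l := by exact_mod_cast hl0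
    have hqR : (0 : ℝ) < q := by exact_mod_cast hq
    have hmain : ((K : ℝ) / q) ^ 2 * ((NN l : ℝ) / (l : ℝ) ^ 2 * ∏ l' ∈ T, (NN l' : ℝ) / (l' : ℝ) ^ 2) =
        ∑ _p ∈ RR l, A := by
      rw [sum_const, nsmul_eq_mul, RR_card, hA]
      field_simp
    rw [hmain, ← Finset.sum_sub_distrib]
    refine (abs_sum_le_sum_abs _ _).trans ?_
    have hb : ∀ p ∈ RR l, |(CP K (q * l) (Nat.chineseRemainder hcl r p.1)
        (Nat.chineseRemainder hcl r' p.2) T : ℝ) - A| ≤ E := by
      intro p _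
      have h := ih hTT (q * l) (Nat.chineseRemainder hcl r p.1) (Nat.chineseRemainder hcl r' p.2) hql hco'
      rw [Nat.cast_mul] at h
      rw [hA, hE]
      exact h
    refine (sum_le_sum hb).trans ?_
    rw [sum_const, nsmul_eq_mul, RR_card, hE]
    have hPi : (0 : ℝ) ≤ ∏ l' ∈ T, (NN l' : ℝ) := prod_nonneg fun _ _ => Nat.cast_nonneg _
    have hle : (K : ℝ) / ((q : ℝ) * l) ≤ (K : ℝ) / q := by
      apply div_le_div_of_nonneg_left (Nat.cast_nonneg K) hqR
      have : (1 : ℝ) ≤ l := by exact_mod_cast hl0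
      nlinarith
    have hN : (0 : ℝ) ≤ NN l := Nat.cast_nonneg _
    calc (NN l : ℝ) * ((2 * ((K : ℝ) / ((q : ℝ) * l)) + 1) * ∏ l' ∈ T, (NN l' : ℝ))
        ≤ (NN l : ℝ) * ((2 * ((K : ℝ) / q) + 1) * ∏ l' ∈ T, (NN l' : ℝ)) := by
          refine mul_le_mul_of_nonneg_left (mul_le_mul_of_nonneg_right ?_ hPi) hN
          linarith
      _ = (2 * ((K : ℝ) / q) + 1) * ((NN l : ℝ) * ∏ l' ∈ T, (NN l' : ℝ)) := by ring

/-- MODULE CTT. -/
theorem hCTT : StCTT := by
  classical
  intro K T hK hT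
  have h := ind K T hT 1 0 0 le_rfl (fun l _ => Nat.coprime_one_right l)
  have e : ((Icc 1 K) ×ˢ (Icc 1 K)).filter (fun x : ℕ × ℕ =>
      (x.1 % 1 = 0 % 1 ∧ x.2 % 1 = 0 % 1) ∧ ∀ l ∈ T, (l : ℤ) ∣ ff x.1 x.2) =
      ((Icc 1 K) ×ˢ (Icc 1 K)).filter (fun x : ℕ × ℕ => ∀ l ∈ T, (l : ℤ) ∣ ff x.1 x.2) := by
    apply Finset.filter_congr
    intro x _
    simp [Nat.mod_one]
  unfold CP at h
  rw [Nat.cast_one, div_one] at h
  have h2 : |((((Icc 1 K) ×ˢ (Icc 1 K)).filter (fun x : ℕ × ℕ => ∀ l ∈ T, (l : ℤ) ∣ ff x.1 x.2)).card : ℝ) -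
      (K : ℝ) ^ 2 * ∏ l ∈ T, (NN l : ℝ) / (l : ℝ) ^ 2| ≤ (2 * (K : ℝ) + 1) * ∏ l ∈ T, (NN l : ℝ) := by
    rw [← e]
    convert h using 5
  have hN : ∏ l ∈ T, (NN l : ℝ) ≤ (∏ l ∈ T, (l : ℝ)) ^ 2 := by
    rw [← prod_pow]
    refine prod_le_prod (fun _ _ => Nat.cast_nonneg _) fun l _ => ?_
    have h3 : NN l ≤ l ^ 2 := by
      rw [← RR_card]
      unfold RR
      refine (card_filter_le _ _).trans ?_
      rw [card_product, card_range, pow_two]
    exact_mod_cast h3
  have hK1 : (1 : ℝ) ≤ K := by exact_mod_cast hK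
  have hfin : (2 * (K : ℝ) + 1) * ∏ l ∈ T, (NN l : ℝ) ≤ 3 * K * (∏ l ∈ T, (l : ℝ)) ^ 2 :=
    mul_le_mul (by linarith) hN (prod_nonneg fun _ _ => Nat.cast_nonneg _) (by positivity)
  refine le_trans ?_ hfin
  convert h2 using 5

end Pool.Agent.Helper1.LPB
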